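import Mathlib
import Pool.Agent.H37.RA.Final

set_option autoImplicit false

namespace Pool.Agent.Results.MP_b5c453_co.LogarithmicSize

open Pool.Agent.H37.RA

/-- `m k` is the least number of vertices of a graph with a triangle which is `1/k`-RA.
(1) For every `k` there is a connected graph with a triangle which is `1/k`-RA and has at most
`81 log₂ k + 82` vertices; in particular `m k ≤ 81 log₂ k + 82`.
(2) Every `1/k`-RA graph on `n` vertices has `k ≤ n!`; in particular `k ≤ (m k)!`.
(3) For `k ≥ 512` no pyramid over a crown graph is a smallest `1/k`-RA graph with a triangle: if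
the pyramid over the crown graph on `2 n` vertices is `1/k`-RA, then there is a connected
`1/k`-RA graph with a triangle on fewer vertices. -/
theorem result :
    (∀ k : ℕ, 2 ≤ k → (∃ N : ℕ, N ≤ 81 * Nat.log 2 k + 82 ∧
      ∃ Γ : SimpleGraph (Fin N), Γ.Connected ∧ ¬ Γ.CliqueFree 3 ∧ IsRA k Γ) ∧
      m k ≤ 81 * Nat.log 2 k + 82) ∧
    (∀ k : ℕ, 2 ≤ k → (∀ (n : ℕ) (Γ : SimpleGraph (Fin n)), IsRA k Γ → k ≤ n.factorial) ∧
      k ≤ (m k).factorial) ∧
    (∀ k n : ℕ, 512 ≤ k → IsRA k (pyramid (crown n)) →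
      m k < Fintype.card (Option (Fin n ⊕ Fin n)) ∧
      ∃ N : ℕ, N < Fintype.card (Option (Fin n ⊕ Fin n)) ∧
        ∃ Γ : SimpleGraph (Fin N), Γ.Connected ∧ ¬ Γ.CliqueFree 3 ∧ IsRA k Γ) := by
  refine ⟨fun k _ => ⟨exists_small k, m_upper k⟩, fun k hk => ⟨?_, m_lower k (by omega)⟩, ?_⟩
  · intro n Γ h
    have := le_factorial Γ (by omega) h
    rwa [Fintype.card_fin] at this
  · intro k n hk h
    refine ⟨pyr_not_min k n hk h, ?_⟩
    obtain ⟨N, hN, Γ, h1, h2, h3⟩ := exists_small k
    have h4 := pyr_bound' (by omega) h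
    have h5 := log_bound k hk
    refine ⟨N, ?_, Γ, h1, h2, h3⟩
    rw [Fintype.card_option, Fintype.card_sum, Fintype.card_fin]
    omega

end Pool.Agent.Results.MP_b5c453_co.LogarithmicSize
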